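import Pool.Agent.Q330.EVJ.Deg

/-!
# Properties which jump on the independent sets of a matroid are evasive (MP_257582_lc)

All statements hold for every number `n` of vertices, without any condition on the arithmetic of `n`.
`P` is a property of graphs on `n` labelled vertices; in 1, 2 and 5 it need be neither monotone nor
invariant.  `r` is the rank function of a matroid on the pairs of vertices (`IsRank`).

1. Let the matroid have no loops and let `1 ≤ t ≤ r(K_n)`.  If all independent sets of `t` pairs have
   `P` and no independent set of `t - 1` pairs has `P` then `P` is evasive.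
2. Let the matroid have no coloops, `k ≥ 1` and `k + r(K_n) ≤ C(n,2)`.  If all spanning sets of
   `r(K_n) + k` pairs have `P` and no spanning set of `r(K_n) + k - 1` pairs has `P` then `P` is
   evasive.
3. Let the matroid be invariant under the permutations of the vertices.  EVERY non-trivial monotone
   property which is determined by the rank and the number of the edges is evasive (for the graphic
   matroid: by the numbers of the components and of the edges; for the rigidity matroids: by the
   number of degrees of freedom and the number of edges).  The starting results and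
   `MatroidRank` have single thresholds only.
4. `r(G) ≥ t or Q(G)` is evasive for every property `Q` which no independent set has, and
   `|E(G)| - r(G) ≥ k and Q(G)` is evasive for every property `Q` which all spanning sets have.
   For `n ≥ 2`: `G is connected or Q(G)` is evasive for every property `Q` which no forest has
   (connected or with a triangle; connected or not bipartite; connected or not planar; connected or
   with a nonempty `k`-core, `k ≥ 2`, ...).
5. Let the pairs be divided into classes, and let `c_i ≥ 1` for each class.  If all sets of `t` pairs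
   with at most `c_i` pairs from each class have `P`, and none of the sets of `t - 1` pairs of this
   kind has `P`, then `P` is evasive (if `t` is at most the size of the largest such sets).
6. The largest `c`-degenerate subgraph: `G has a subgraph with t edges which is c-degenerate` is
   evasive whenever it is non-trivial, for all `n`, `c ≥ 1` and `t`; more generally with a bound `c i`
   for the number of the earlier neighbours of the vertex at the place `i`.  The largest degenerate
   subgraph is not given by a matroid, if `c ≥ 2`.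

Proof.  The adversary of `MatroidRank` (`Pool/Agent/Q295/EV/Rank.lean`) for the truncated matroid ends
with one open pair and a set of accepted pairs which is independent; together with the open pair it
is a basis.  2 is the dual.  3: let `t` be the least size of an independent set with `P`; if there is
none then let `k` be the least number of superfluous elements of a spanning set with `P`.  5 is the
case of a partition matroid.  For 6 the class of a pair is its later end: the sets with at most `c`
elements in each class are `c`-degenerate.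
-/

set_option autoImplicit false

namespace Pool.Agent.Results.MP_257582_lc.MatroidJumps

open Finset

/-- Every decision strategy `σ` (the next pair to be queried depends only on the answers to the
queries made so far) needs all `n.choose 2` queries: there are two graphs that agree on the first
`n.choose 2 - 1` queried pairs, one with and one without `P`. -/
def Evasive {n : ℕ} (P : SimpleGraph (Fin n) → Prop) : Prop :=
  ∀ σ : Finset (Sym2 (Fin n)) → SimpleGraph (Fin n) → Sym2 (Fin n),
    (∀ (Q : Finset (Sym2 (Fin n))) (G H : SimpleGraph (Fin n)),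
        (∀ e ∈ Q, (e ∈ G.edgeSet ↔ e ∈ H.edgeSet)) → σ Q G = σ Q H) →
    ∃ G H : SimpleGraph (Fin n),
      (∀ e ∈ (fun Q : Finset (Sym2 (Fin n)) => insert (σ Q G) Q)^[n.choose 2 - 1]
            (∅ : Finset (Sym2 (Fin n))),
          (e ∈ G.edgeSet ↔ e ∈ H.edgeSet)) ∧ P G ∧ ¬ P H

open Classical in
/-- The set of edges of `G`. -/
noncomputable def edges {n : ℕ} (G : SimpleGraph (Fin n)) : Finset (Sym2 (Fin n)) :=
  univ.filter fun e => e ∈ G.edgeSet

/-- The set of all pairs of distinct vertices. -/
def pairs (n : ℕ) : Finset (Sym2 (Fin n)) := univ.filter fun e => ¬ e.IsDiag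

/-- `r` satisfies the axioms of the rank functions of matroids. -/
structure IsRank {n : ℕ} (r : Finset (Sym2 (Fin n)) → ℕ) : Prop where
  le_card : ∀ S, r S ≤ S.card
  mono : ∀ S T, S ⊆ T → r S ≤ r T
  submod : ∀ S T, r (S ∪ T) + r (S ∩ T) ≤ r S + r T

/-- `r` is invariant under the permutations of the vertices. -/
def Inv {n : ℕ} (r : Finset (Sym2 (Fin n)) → ℕ) : Prop :=
  ∀ (σ : Equiv.Perm (Fin n)) (S : Finset (Sym2 (Fin n))), r (S.image (Sym2.map σ)) = r S

/-- There is an order `π` of the vertices such that every vertex `v` has at most `c i` neighbours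
before it (along the edges in `F`), where `i = π v` is the number of the vertices before `v`. For
constant `c` the graph is `c`-degenerate. -/
def Ordered {n : ℕ} (c : ℕ → ℕ) (F : Finset (Sym2 (Fin n))) : Prop :=
  ∃ π : Equiv.Perm (Fin n), ∀ v, (univ.filter fun u => s(u, v) ∈ F ∧ π u < π v).card ≤ c (π v)

theorem result (n : ℕ) :
    -- (1) a jump on the independent sets
    (∀ r : Finset (Sym2 (Fin n)) → ℕ, IsRank r → (∀ e ∈ pairs n, 1 ≤ r {e}) →
      ∀ t, 1 ≤ t → t ≤ r (pairs n) → ∀ P : SimpleGraph (Fin n) → Prop,
        (∀ G, (edges G).card = t → r (edges G) = t → P G) →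
        (∀ G, (edges G).card = t - 1 → r (edges G) = t - 1 → ¬ P G) → Evasive P) ∧
    -- (2) a jump on the spanning sets
    (∀ r : Finset (Sym2 (Fin n)) → ℕ, IsRank r → (∀ e ∈ pairs n, r (pairs n \ {e}) = r (pairs n)) →
      ∀ k, 1 ≤ k → k + r (pairs n) ≤ n.choose 2 → ∀ P : SimpleGraph (Fin n) → Prop,
        (∀ G, (edges G).card = r (pairs n) + k → r (edges G) = r (pairs n) → P G) →
        (∀ G, (edges G).card = r (pairs n) + (k - 1) → r (edges G) = r (pairs n) → ¬ P G) →
          Evasive P) ∧
    -- (3) all properties which are determined by rank and size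
    (∀ r : Finset (Sym2 (Fin n)) → ℕ, IsRank r → Inv r → ∀ P : SimpleGraph (Fin n) → Prop,
      (∀ G H, G ≤ H → P G → P H) →
      (∀ G H, r (edges G) = r (edges H) → (edges G).card = (edges H).card → P G → P H) →
      (∃ G, P G) → (∃ G, ¬ P G) → Evasive P) ∧
    -- (4) unions and intersections
    (∀ r : Finset (Sym2 (Fin n)) → ℕ, IsRank r → ∀ Q : SimpleGraph (Fin n) → Prop,
      ((∀ e ∈ pairs n, 1 ≤ r {e}) → (∀ G, r (edges G) = (edges G).card → ¬ Q G) →
        ∀ t, 1 ≤ t → t ≤ r (pairs n) → Evasive (fun G => t ≤ r (edges G) ∨ Q G)) ∧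
      ((∀ e ∈ pairs n, r (pairs n \ {e}) = r (pairs n)) →
        (∀ G, r (edges G) = r (pairs n) → Q G) → ∀ k, 1 ≤ k → k + r (pairs n) ≤ n.choose 2 →
          Evasive (fun G => k + r (edges G) ≤ (edges G).card ∧ Q G))) ∧
    (2 ≤ n → ∀ Q : SimpleGraph (Fin n) → Prop, (∀ G, G.IsAcyclic → ¬ Q G) →
      Evasive (fun G => G.Connected ∨ Q G)) ∧
    -- (5) classes of pairs
    (∀ (m : ℕ) (cls : Sym2 (Fin n) → Fin m) (c : Fin m → ℕ), (∀ e ∈ pairs n, 1 ≤ c (cls e)) →
      ∀ t, 1 ≤ t → t ≤ ∑ i, min (c i) ((pairs n).filter (fun e => cls e = i)).card →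
      ∀ P : SimpleGraph (Fin n) → Prop,
        (∀ G, (edges G).card = t → (∀ i, ((edges G).filter (fun e => cls e = i)).card ≤ c i) →
          P G) →
        (∀ G, (edges G).card = t - 1 → (∀ i, ((edges G).filter (fun e => cls e = i)).card ≤ c i) →
          ¬ P G) → Evasive P) ∧
    -- (6) the largest degenerate subgraph
    (∀ c : ℕ → ℕ, (∀ i, 1 ≤ i → i < n → 1 ≤ c i) → ∀ t, 1 ≤ t → t ≤ ∑ i ∈ range n, min (c i) i →
      Evasive (fun G : SimpleGraph (Fin n) => ∃ F ⊆ edges G, t ≤ F.card ∧ Ordered c F)) := by
  have hr : ∀ r : Finset (Sym2 (Fin n)) → ℕ, IsRank r → Pool.Agent.Q295.EV.IsRank r :=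
    fun r h => ⟨h.le_card, h.mono, h.submod⟩
  have he : ∀ S ⊆ Pool.Agent.Q295.EV.E n, edges (Pool.Agent.Q295.EV.gr S) = S :=
    fun S hS => Pool.Agent.Q295.EV.edges_gr hS
  refine ⟨?_, ?_, ?_, ?_, ?_, ?_, ?_⟩
  · intro r h hl t ht1 htr P hP1 hP0
    exact Pool.Agent.Q330.EVJ.indep_jump (hr r h) hl ht1 htr P
      (fun S hS hc hrS => hP1 _ (by rw [he S hS]; exact hc) (by rw [he S hS]; exact hrS))
      (fun S hS hc hrS => hP0 _ (by rw [he S hS]; exact hc) (by rw [he S hS]; exact hrS))
  · intro r h hl k hk hkr P hP1 hP0
    exact Pool.Agent.Q330.EVJ.span_jump (hr r h) hl hk hkr P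
      (fun S hS hc hrS => hP1 _ (by rw [he S hS]; exact hc) (by rw [he S hS]; exact hrS))
      (fun S hS hc hrS => hP0 _ (by rw [he S hS]; exact hc) (by rw [he S hS]; exact hrS))
  · intro r h hi P hm hd h1 h2
    exact Pool.Agent.Q330.EVJ.rank_size (hr r h) hi P hm hd h1 h2
  · intro r h Q
    exact ⟨fun hl hQ t ht1 htr => Pool.Agent.Q330.EVJ.or_evasive (hr r h) hl ht1 htr Q hQ,
      fun hl hQ k hk hkr => Pool.Agent.Q330.EVJ.and_evasive (hr r h) hl hk hkr Q hQ⟩
  · intro hn Q hQ
    exact Pool.Agent.Q330.EVJ.connected_or_evasive hn Q hQ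
  · intro m cls c hc t ht1 htr P hP1 hP0
    exact Pool.Agent.Q330.EVJ.part_jump cls c hc ht1 htr P
      (fun S hS hcS hi => hP1 _ (by rw [he S hS]; exact hcS) (by rw [he S hS]; exact hi))
      (fun S hS hcS hi => hP0 _ (by rw [he S hS]; exact hcS) (by rw [he S hS]; exact hi))
  · intro c hc t ht1 htr
    exact Pool.Agent.Q330.EVJ.degenerate_evasive c hc ht1 htr

end Pool.Agent.Results.MP_257582_lc.MatroidJumps
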