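import Pool.Agent.Q295.EV.Vec

/-!
# Rank, nullity and excess conditions are evasive; rigidity is evasive (MP_257582_lc)

All statements hold for every number `n` of vertices.

1. Let `r` be the rank function of a matroid on the pairs of vertices, invariant under the
   permutations of the vertices (graphic matroid, bicircular matroid, even cycle matroid, generic
   rigidity and cofactor matroids in all dimensions, unions and truncations of these, ...). Every
   non-trivial property `r(G) ≥ k` and every non-trivial property `|E(G)| - r(G) ≥ k` is evasive.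
2. Let `g` be a monotone submodular invariant function of sets of pairs, `g(∅) = 0` (for example
   `g(F)` = `t` times the number of vertices covered by `F`, or `t` times the rank of `F`). Every
   non-trivial property 'some set `F` of edges of `G` has `|F| ≥ g(F) + k`' is evasive: for instance
   having a subgraph with more than `t` times as many edges as vertices.
3. Without invariance: for a matroid without loops `r(G) ≥ k` is evasive for `1 ≤ k ≤ r(K_n)`, and
   for a matroid without coloops `|E(G)| - r(G) ≥ k` is evasive for `1 ≤ k ≤ C(n,2) - r(K_n)`.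
4. Let the `n ≥ 2` vertices be placed at different points `p_i` of `K ^ d`, `K` a field. The property
   that the framework `(G, p)` is infinitesimally rigid is evasive. For `K = ℝ` and coordinates which
   are algebraically independent over `ℚ` this is the property that `G` is generically rigid in
   dimension `d`.

Proof. Truncating `r` one may assume that `k` is the full rank. The adversary keeps the contraction
by the accepted pairs free of loops: a pair is rejected if the pairs not rejected still have full
rank, otherwise it is a coloop of these and is accepted. The last pair decides. The nullity is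
treated by duality, and an excess condition is a nullity condition for the matroid induced by `g`.
-/

set_option autoImplicit false

namespace Pool.Agent.Results.MP_257582_lc.MatroidRank

open Finset

/-- Every decision strategy `σ` (the next pair to be queried depends only on the answers to the
queries made so far) needs all `n.choose 2` queries: there are two graphs that agree on the first
`n.choose 2 - 1` queried pairs, one with and one without `P`. -/
def Evasive {n : ℕ} (P : SimpleGraph (Fin n) → Prop) : Prop :=
  ∀ σ : Finset (Sym2 (Fin n)) → SimpleGraph (Fin n) → Sym2 (Fin n),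
    (∀ (Q : Finset (Sym2 (Fin n))) (G H : SimpleGraph (Fin n)),
        (∀ e ∈ Q, (e ∈ G.edgeSet ↔ e ∈ H.edgeSet)) → σ Q G = σ Q H) →
    ∃ G H : SimpleGraph (Fin n),
      (∀ e ∈ (fun Q : Finset (Sym2 (Fin n)) => insert (σ Q G) Q)^[n.choose 2 - 1]
            (∅ : Finset (Sym2 (Fin n))),
          (e ∈ G.edgeSet ↔ e ∈ H.edgeSet)) ∧ P G ∧ ¬ P H

open Classical in
/-- The set of edges of `G`. -/
noncomputable def edges {n : ℕ} (G : SimpleGraph (Fin n)) : Finset (Sym2 (Fin n)) :=
  univ.filter fun e => e ∈ G.edgeSet

/-- The set of all pairs of distinct vertices. -/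
def pairs (n : ℕ) : Finset (Sym2 (Fin n)) := univ.filter fun e => ¬ e.IsDiag

/-- `r` satisfies the axioms of the rank functions of matroids. -/
structure IsRank {n : ℕ} (r : Finset (Sym2 (Fin n)) → ℕ) : Prop where
  le_card : ∀ S, r S ≤ S.card
  mono : ∀ S T, S ⊆ T → r S ≤ r T
  submod : ∀ S T, r (S ∪ T) + r (S ∩ T) ≤ r S + r T

/-- `r` is invariant under the permutations of the vertices. -/
def Inv {n : ℕ} (r : Finset (Sym2 (Fin n)) → ℕ) : Prop :=
  ∀ (σ : Equiv.Perm (Fin n)) (S : Finset (Sym2 (Fin n))), r (S.image (Sym2.map σ)) = r S

/-- A property of graphs is non-trivial if some graphs have it and some do not have it. -/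
def Nontriv {n : ℕ} (P : SimpleGraph (Fin n) → Prop) : Prop := (∃ G, P G) ∧ ∃ G, ¬ P G

/-- The framework `(G, p)` is infinitesimally rigid: every assignment `u` of velocities to the
vertices that preserves the lengths of the edges of `G` (to first order) preserves the distances of
all pairs of vertices. -/
def Rigid {n d : ℕ} {K : Type*} [Field K] (p : Fin n → Fin d → K) (G : SimpleGraph (Fin n)) : Prop :=
  ∀ u : Fin n → Fin d → K, (∀ i j, G.Adj i j → ∑ c, (p i c - p j c) * (u i c - u j c) = 0) →
    ∀ i j, ∑ c, (p i c - p j c) * (u i c - u j c) = 0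

theorem result (n : ℕ) :
    -- (1) invariant matroids: rank and nullity
    (∀ r : Finset (Sym2 (Fin n)) → ℕ, IsRank r → Inv r → ∀ k : ℕ,
      (Nontriv (fun G => k ≤ r (edges G)) → Evasive (fun G => k ≤ r (edges G))) ∧
      (Nontriv (fun G => k + r (edges G) ≤ (edges G).card) →
        Evasive (fun G => k + r (edges G) ≤ (edges G).card))) ∧
    -- (2) excess over a submodular function
    (∀ g : Finset (Sym2 (Fin n)) → ℕ, g ∅ = 0 → (∀ S T, S ⊆ T → g S ≤ g T) →
      (∀ S T, g (S ∪ T) + g (S ∩ T) ≤ g S + g T) → Inv g → ∀ k : ℕ,
      Nontriv (fun G => ∃ F ⊆ edges G, k + g F ≤ F.card) →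
        Evasive (fun G => ∃ F ⊆ edges G, k + g F ≤ F.card)) ∧
    -- (3) arbitrary matroids without loops, without coloops
    (∀ r : Finset (Sym2 (Fin n)) → ℕ, IsRank r →
      ((∀ e ∈ pairs n, 1 ≤ r {e}) → ∀ k, 1 ≤ k → k ≤ r (pairs n) →
        Evasive (fun G => k ≤ r (edges G))) ∧
      ((∀ e ∈ pairs n, r (pairs n \ {e}) = r (pairs n)) → ∀ k, 1 ≤ k →
        k + r (pairs n) ≤ n.choose 2 → Evasive (fun G => k + r (edges G) ≤ (edges G).card))) ∧
    -- (4) rigidity
    (2 ≤ n → ∀ (d : ℕ) (K : Type) [Field K] (p : Fin n → Fin d → K), Function.Injective p →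
      Evasive (Rigid p)) := by
  have hr : ∀ r : Finset (Sym2 (Fin n)) → ℕ, IsRank r → Pool.Agent.Q295.EV.IsRank r :=
    fun r h => ⟨h.le_card, h.mono, h.submod⟩
  refine ⟨?_, ?_, ?_, ?_⟩
  · intro r h hi k
    exact ⟨fun hP => Pool.Agent.Q295.EV.rank_inv (hr r h) hi k hP.1 hP.2,
      fun hP => Pool.Agent.Q295.EV.nullity_inv (hr r h) hi k hP.1 hP.2⟩
  · intro g h0 hm hs hi k hP
    exact Pool.Agent.Q295.EV.excess_inv h0 hm hs hi k hP.1 hP.2
  · intro r h
    exact ⟨fun hl k hk hkr => Pool.Agent.Q295.EV.rank_evasive (hr r h) hl k hk hkr,
      fun hl k hk hkr => Pool.Agent.Q295.EV.nullity_evasive (hr r h) hl k hk hkr⟩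
  · intro hn d K _ p hp
    exact Pool.Agent.Q295.EV.rigid_evasive p hn hp

end Pool.Agent.Results.MP_257582_lc.MatroidRank
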