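import Mathlib
import Pool.Agent.Q213.EV.Robust
import Pool.Agent.Q213.EV.Expand
import Pool.Agent.Results.MP_257582_lc.ConeDegrees

set_option autoImplicit false

/-!
# Evasiveness of robust spanning tree packing, strength and edge expansion (MP_257582_lc)

For every number `N = n + 1 ≥ 2` of vertices (no prime power restriction) we prove evasiveness of
the following properties of graphs on `N` vertices, whenever they are non-trivial.

* After the deletion of any at most `l` edges the graph still contains `k` pairwise edge-disjoint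
  spanning trees (`k ≥ 1`, `k + l ≥ 2`); equivalently, at least `k (q - 1) + l` edges join different
  classes of every partition into `q ≥ 2` classes ((k, l)-partition-connectivity).
* The strength of the graph is at least `t`, for a real number `t > 1`.
* The edge boundary of every non-empty set `S` of at most `N / 2` vertices has at least `f |S|`
  elements; `f` is any real function with `f 1 > 1` and `f s ≤ max s (s (f 1 + 1 - s))`. Examples
  are `f = k` (edge connectivity), and for `k`-edge-connected graphs the requirement that every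
  edge cut with at least two vertices on both sides has at least `2 k - 2` edges, or that the edge
  expansion (isoperimetric number) is at least `1`.
* The conjunction of one of these with any monotone invariant property `Q` that does not distinguish
  the cones over two regular graphs of the same degree, for example with `at least m edges`, or with
  another one of these properties.

Proof.  By `ConeDegrees.cone_evasive` it suffices that for cones `Cone K` over `d`-regular graphs
`K` on `n` vertices membership depends on `d` only, and fails for `d = 0`.  If `X` is the set of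
edges of `Cone K` between the classes of a partition into `m + 1 ≥ 2` classes, then
`2 |X| ≥ m (d + 2)` and `2 |X| ≥ (m + 1) (d + 1)`: every class `B` not containing the apex sends out
at least `max (|B|, d + 1)` edges.  With the theorem of Tutte and Nash-Williams (which we derive from
the packing theorem for bases of matroids) this gives that `Cone K` has the first property if and
only if `k + l ≤ d + 1`, `2 k ≤ d + 2`, and `l = 0` or `2 k ≤ d + 1`; the strength of `Cone K` is
`(d + 2) / 2`; and `Cone K` has the third property if and only if `f 1 ≤ d + 1`.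
-/

namespace Pool.Agent.Results.MP_257582_lc.PartitionConnectivity

open Finset
open Pool.Agent.Results.MP_257582_lc.ConeDegrees (Evasive Cone RegularOfDegree cone_evasive
  regular_top regular_bot)

/-- `G` contains `k` pairwise edge-disjoint spanning trees `T 0, …, T (k - 1)`. -/
def Packs {N : ℕ} (k : ℕ) (G : SimpleGraph (Fin N)) : Prop :=
  ∃ T : Fin k → SimpleGraph (Fin N), (∀ i, T i ≤ G ∧ (T i).IsTree) ∧
    ∀ i j, i ≠ j → ∀ u v, (T i).Adj u v → ¬ (T j).Adj u v

/-- After the deletion of any set `F` of at most `l` edges (or pairs), `G` still contains `k`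
pairwise edge-disjoint spanning trees. -/
def RobustlyPacks {N : ℕ} (k l : ℕ) (G : SimpleGraph (Fin N)) : Prop :=
  ∀ F : Finset (Sym2 (Fin N)), F.card ≤ l → Packs k (G.deleteEdges F)

/-- The strength of `G` is at least `t`: for every partition of the vertices into `q` classes (the
nonempty fibres of a function `c`, so `q` is the number of values of `c`), at least `t * (q - 1)`
edges of `G` join vertices of different classes. -/
def StrengthAtLeast {N : ℕ} (t : ℝ) (G : SimpleGraph (Fin N)) : Prop :=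
  ∀ c : Fin N → Fin N, t * (((univ.image c).card : ℝ) - 1) ≤
    ({e | e ∈ G.edgeSet ∧ ∃ x ∈ e, ∃ y ∈ e, c x ≠ c y}.ncard : ℝ)

/-- Every non-empty set `S` of at most `N / 2` vertices of `G` is joined to its complement by at
least `f |S|` edges. -/
def Expands {N : ℕ} (f : ℕ → ℝ) (G : SimpleGraph (Fin N)) : Prop :=
  ∀ S : Finset (Fin N), S.Nonempty → 2 * S.card ≤ N →
    f S.card ≤ ({e | e ∈ G.edgeSet ∧ (∃ x ∈ e, x ∈ S) ∧ ∃ x ∈ e, x ∉ S}.ncard : ℝ)

/-- `Q` is monotone and isomorphism-invariant, and does not distinguish the cones over two regular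
graphs of the same degree. -/
structure ConeDegree {n : ℕ} (Q : SimpleGraph (Fin (n + 1)) → Prop) : Prop where
  mono : ∀ G H : SimpleGraph (Fin (n + 1)), G ≤ H → Q G → Q H
  iso : ∀ (σ : Fin (n + 1) ≃ Fin (n + 1)) (G : SimpleGraph (Fin (n + 1))),
    Q G → Q (G.map σ.toEmbedding)
  cone : ∀ (d : ℕ) (K L : SimpleGraph (Fin n)), RegularOfDegree K d → RegularOfDegree L d →
    (Q (Cone K) ↔ Q (Cone L))

theorem expd_iff {N : ℕ} {f : ℕ → ℝ} (G : SimpleGraph (Fin N)) :
    Expands f G ↔ Pool.Agent.Q213.EV.Expd f G := by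
  unfold Expands Pool.Agent.Q213.EV.Expd
  rw [Fintype.card_fin]
  exact Iff.rfl

theorem le_cone_top {n : ℕ} (G : SimpleGraph (Fin (n + 1))) :
    G ≤ Cone (⊤ : SimpleGraph (Fin n)) := by
  intro u v huv
  refine ⟨huv.ne, fun x y hx hy => ?_⟩
  rw [SimpleGraph.top_adj]
  rintro rfl
  exact huv.ne (hx.trans hy.symm)

theorem exists_ne_vertex {n : ℕ} (hn : 1 ≤ n) (v : Fin (n + 1)) : ∃ w, v ≠ w := by
  have : Nontrivial (Fin (n + 1)) := Fin.nontrivial_iff_two_le.2 (by omega)
  obtain ⟨w, hw⟩ := exists_ne v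
  exact ⟨w, hw.symm⟩

theorem rob_hiff {n k l : ℕ} (hn : 1 ≤ n) (hk : 1 ≤ k) (d : ℕ) (K : SimpleGraph (Fin n))
    (hK : RegularOfDegree K d) : RobustlyPacks k l (Cone K) ↔
      k + l ≤ d + 1 ∧ 2 * k ≤ d + 2 ∧ (l = 0 ∨ 2 * k ≤ d + 1) :=
  ⟨fun h => Pool.Agent.Q213.EV.rob_cone_imp hn hK hk h,
    fun h => Pool.Agent.Q213.EV.rob_cone_of hK hk h.1 h.2.1 h.2.2⟩

theorem rob_cd {n k l : ℕ} (hn : 1 ≤ n) (hk : 1 ≤ k) :
    ConeDegree (fun G : SimpleGraph (Fin (n + 1)) => RobustlyPacks k l G) where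
  mono := fun _ _ hGH h => Pool.Agent.Q213.EV.rob_mono hGH h
  iso := fun σ _ h => Pool.Agent.Q213.EV.rob_map σ h
  cone := fun d K L hK hL => by rw [rob_hiff hn hk d K hK, rob_hiff hn hk d L hL]

theorem str_cd {n : ℕ} (hn : 1 ≤ n) (t : ℝ) :
    ConeDegree (fun G : SimpleGraph (Fin (n + 1)) => StrengthAtLeast t G) where
  mono := fun _ _ hGH h => Pool.Agent.Q213.EV.strg_mono hGH h
  iso := fun σ _ h => Pool.Agent.Q213.EV.strg_map σ h
  cone := fun _ _ _ hK hL => (Pool.Agent.Q213.EV.strg_cone hn hK t).trans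
    (Pool.Agent.Q213.EV.strg_cone hn hL t).symm

/-- the condition on `f` -/
def Adm (n : ℕ) (f : ℕ → ℝ) : Prop :=
  ∀ s : ℕ, 1 ≤ s → 2 * s ≤ n + 1 → f s ≤ max (s : ℝ) (s * (f 1 + 1 - s))

theorem exp_hiff {n : ℕ} (hn : 1 ≤ n) {f : ℕ → ℝ} (hf : Adm n f) (d : ℕ)
    (K : SimpleGraph (Fin n)) (hK : RegularOfDegree K d) : Expands f (Cone K) ↔ f 1 ≤ d + 1 :=
  (expd_iff _).trans (Pool.Agent.Q213.EV.expd_cone hn hK f hf)

theorem exp_cd {n : ℕ} (hn : 1 ≤ n) {f : ℕ → ℝ} (hf : Adm n f) :
    ConeDegree (fun G : SimpleGraph (Fin (n + 1)) => Expands f G) where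
  mono := fun G H hGH h =>
    (expd_iff H).2 (Pool.Agent.Q213.EV.expd_mono hGH ((expd_iff G).1 h))
  iso := fun σ G h => (expd_iff _).2 (Pool.Agent.Q213.EV.expd_map σ ((expd_iff G).1 h))
  cone := fun d K L hK hL => by rw [exp_hiff hn hf d K hK, exp_hiff hn hf d L hL]

theorem edge_cd {n : ℕ} (m : ℕ) :
    ConeDegree (fun G : SimpleGraph (Fin (n + 1)) => m ≤ G.edgeSet.ncard) where
  mono := fun _ _ hGH h => h.trans
    (Set.ncard_le_ncard (SimpleGraph.edgeSet_mono hGH) (Set.toFinite _))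
  iso := fun σ G h => by
    refine le_trans h ?_
    rw [← Set.ncard_image_of_injective _ (Sym2.map.injective σ.injective)]
    refine Set.ncard_le_ncard ?_ (Set.toFinite _)
    rintro _ ⟨e, he, rfl⟩
    induction e using Sym2.ind with
    | _ a b =>
      rw [Sym2.map_mk]
      exact (SimpleGraph.map_adj _ _ _ _).2 ⟨a, b, he, rfl, rfl⟩
  cone := fun d K L hK hL => by
    have h1 := Pool.Agent.Q213.EV.edges_cone hK
    have h2 := Pool.Agent.Q213.EV.edges_cone hL
    have h3 : (Cone K).edgeSet.ncard = (Cone L).edgeSet.ncard := by omega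
    rw [h3]

/-- the conjunction -/
theorem conj_evasive {n : ℕ} {P Q : SimpleGraph (Fin (n + 1)) → Prop} (hP : ConeDegree P)
    (hQ : ConeDegree Q)
    (hisol : ∀ G : SimpleGraph (Fin (n + 1)), (∃ v, ∀ w, ¬ G.Adj v w) → ¬ P G)
    (hstar : ¬ P (Cone (⊥ : SimpleGraph (Fin n)))) (hex : ∃ G, P G ∧ Q G) :
    Evasive (fun G => P G ∧ Q G) := by
  refine cone_evasive n _ ?_ ?_ ?_ hex ?_ ?_
  · intro G H hGH h
    exact ⟨hP.mono _ _ hGH h.1, hQ.mono _ _ hGH h.2⟩
  · intro σ G h
    exact ⟨hP.iso σ G h.1, hQ.iso σ G h.2⟩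
  · intro G hv h
    exact hisol G hv h.1
  · intro h
    exact hstar h.1
  · intro d K L _ _ hK hL
    exact and_congr (hP.cone d K L hK hL) (hQ.cone d K L hK hL)

theorem rob_nontrivial (n k l : ℕ) (hn : 1 ≤ n) (hk : 1 ≤ k) :
    (∃ G : SimpleGraph (Fin (n + 1)), RobustlyPacks k l G) ↔
      k + l ≤ n ∧ 2 * k ≤ n + 1 ∧ (l = 0 ∨ 2 * k ≤ n) := by
  have h0 := rob_hiff (k := k) (l := l) hn hk _ _ (regular_top n)
  have h1 : n - 1 + 1 = n := by omega
  have h2 : n - 1 + 2 = n + 1 := by omega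
  rw [h1, h2] at h0
  constructor
  · rintro ⟨G, hG⟩
    exact h0.1 (Pool.Agent.Q213.EV.rob_mono (le_cone_top G) hG)
  · intro h
    exact ⟨Cone ⊤, h0.2 h⟩

theorem str_nontrivial (n : ℕ) (t : ℝ) (hn : 1 ≤ n) :
    (∃ G : SimpleGraph (Fin (n + 1)), StrengthAtLeast t G) ↔ 2 * t ≤ n + 1 := by
  have h0 := Pool.Agent.Q213.EV.strg_cone hn (regular_top n) t
  have h1 : ((n - 1 : ℕ) : ℝ) + 2 = n + 1 := by
    have : n - 1 + 2 = n + 1 := by omega
    exact_mod_cast this
  rw [h1] at h0
  constructor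
  · rintro ⟨G, hG⟩
    exact h0.1 (Pool.Agent.Q213.EV.strg_mono (le_cone_top G) hG)
  · intro h
    exact ⟨Cone ⊤, h0.2 h⟩

theorem exp_nontrivial (n : ℕ) (f : ℕ → ℝ) (hn : 1 ≤ n) (hf : Adm n f) :
    (∃ G : SimpleGraph (Fin (n + 1)), Expands f G) ↔ f 1 ≤ n := by
  have h0 := exp_hiff hn hf _ _ (regular_top n)
  have h1 : ((n - 1 : ℕ) : ℝ) + 1 = n := by
    have : n - 1 + 1 = n := by omega
    exact_mod_cast this
  rw [h1] at h0
  constructor
  · rintro ⟨G, hG⟩
    exact h0.1 ((exp_cd hn hf).mono _ _ (le_cone_top G) hG)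
  · intro h
    exact ⟨Cone ⊤, h0.2 h⟩

/-- **Evasiveness of robust spanning tree packing, of strength and of edge expansion, for every
number `n + 1` of vertices.** -/
theorem result (n : ℕ) (hn : 1 ≤ n) :
    -- evasiveness
    (∀ Q : SimpleGraph (Fin (n + 1)) → Prop, ConeDegree Q →
      (∀ k l : ℕ, 1 ≤ k → 2 ≤ k + l → (∃ G, RobustlyPacks k l G ∧ Q G) →
        Evasive (fun G => RobustlyPacks k l G ∧ Q G)) ∧
      (∀ t : ℝ, 1 < t → (∃ G, StrengthAtLeast t G ∧ Q G) →
        Evasive (fun G => StrengthAtLeast t G ∧ Q G)) ∧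
      (∀ f : ℕ → ℝ, 1 < f 1 →
        (∀ s : ℕ, 1 ≤ s → 2 * s ≤ n + 1 → f s ≤ max (s : ℝ) (s * (f 1 + 1 - s))) →
        (∃ G, Expands f G ∧ Q G) → Evasive (fun G => Expands f G ∧ Q G))) ∧
    -- properties `Q`
    (ConeDegree (fun _ : SimpleGraph (Fin (n + 1)) => True) ∧
      (∀ m : ℕ, ConeDegree (fun G : SimpleGraph (Fin (n + 1)) => m ≤ G.edgeSet.ncard)) ∧
      (∀ k l : ℕ, 1 ≤ k → ConeDegree (fun G : SimpleGraph (Fin (n + 1)) => RobustlyPacks k l G)) ∧
      (∀ t : ℝ, ConeDegree (fun G : SimpleGraph (Fin (n + 1)) => StrengthAtLeast t G)) ∧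
      (∀ f : ℕ → ℝ,
        (∀ s : ℕ, 1 ≤ s → 2 * s ≤ n + 1 → f s ≤ max (s : ℝ) (s * (f 1 + 1 - s))) →
        ConeDegree (fun G : SimpleGraph (Fin (n + 1)) => Expands f G))) ∧
    -- when the properties are non-trivial
    ((∀ k l : ℕ, 1 ≤ k → ((∃ G : SimpleGraph (Fin (n + 1)), RobustlyPacks k l G) ↔
        k + l ≤ n ∧ 2 * k ≤ n + 1 ∧ (l = 0 ∨ 2 * k ≤ n))) ∧
      (∀ t : ℝ, (∃ G : SimpleGraph (Fin (n + 1)), StrengthAtLeast t G) ↔ 2 * t ≤ n + 1) ∧
      (∀ f : ℕ → ℝ,
        (∀ s : ℕ, 1 ≤ s → 2 * s ≤ n + 1 → f s ≤ max (s : ℝ) (s * (f 1 + 1 - s))) →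
        ((∃ G : SimpleGraph (Fin (n + 1)), Expands f G) ↔ f 1 ≤ n))) := by
  refine ⟨fun Q hQ => ⟨?_, ?_, ?_⟩, ⟨?_, edge_cd, fun k l hk => rob_cd hn hk, str_cd hn,
    fun f hf => exp_cd hn hf⟩,
    fun k l hk => rob_nontrivial n k l hn hk, fun t => str_nontrivial n t hn,
    fun f hf => exp_nontrivial n f hn hf⟩
  · intro k l hk hkl hex
    refine conj_evasive (rob_cd hn hk) hQ ?_ ?_ hex
    · rintro G ⟨v, hv⟩ h
      obtain ⟨w, hw⟩ := exists_ne_vertex hn v
      exact Pool.Agent.Q213.EV.rob_isolated hk v w hw hv h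
    · intro h
      have := ((rob_hiff hn hk 0 _ (regular_bot n)).1 h).1
      omega
  · intro t ht hex
    refine conj_evasive (str_cd hn t) hQ ?_ ?_ hex
    · rintro G ⟨v, hv⟩ h
      obtain ⟨w, hw⟩ := exists_ne_vertex hn v
      exact Pool.Agent.Q213.EV.strg_isolated (by linarith) v w hw hv h
    · intro h
      have := (Pool.Agent.Q213.EV.strg_cone hn (regular_bot n) t).1 h
      push_cast at this
      linarith
  · intro f hf1 hf hex
    refine conj_evasive (exp_cd hn hf) hQ ?_ ?_ hex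
    · rintro G ⟨v, hv⟩ h
      exact Pool.Agent.Q213.EV.expd_isolated (by linarith) (by rw [Fintype.card_fin]; omega) v hv
        ((expd_iff G).1 h)
    · intro h
      have := (exp_hiff hn hf 0 _ (regular_bot n)).1 h
      push_cast at this
      linarith
  · exact ⟨fun _ _ _ _ => trivial, fun _ _ _ => trivial, fun _ _ _ _ _ => Iff.rfl⟩

end Pool.Agent.Results.MP_257582_lc.PartitionConnectivity
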