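import Pool.Agent.Q40.KP.Band
import Pool.Agent.Q40.KP.NumBand

set_option autoImplicit false

/-!
# Graphs of small bandwidth and complete split graphs decide near-evasiveness

Let `P` be a monotone isomorphism-invariant property of graphs on `n` vertices, `n` arbitrary. `S(t)`
is the complete split graph: `t` vertices are joined to all others, there are no other edges.

1. Let `k` be a prime, `B = 2 ^ a` and `t + k B ≤ n`. If `P` fails for `S(t)` (`t = 0`: the graph
   without edges) and holds for the graph with `t` universal vertices, `k` cyclically arranged cliques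
   of `B` vertices with all edges between neighbouring cliques, and `n - t - k B` further vertices,
   then its complexity is at least `C(k, 2) B ^ 2`. (For `t = 0`, `n = k B` this is
   `(1 - 1 / k) n ^ 2 / 2`.)
2. For every `ε > 0` there are `δ > 0` and `n₀` such that for all `n ≥ n₀`, `t₁ ≤ t₀ ≤ n`: if `P` fails
   for `S(t₀)` and holds for some graph that has, after the deletion of `t₁` vertices, bandwidth at
   most `δ n` and `i` isolated vertices, where `i + (t₀ - t₁) ≥ ε n`, then its complexity is at least
   `(n - t₁) ^ 2 / 2 - 2 ε n ^ 2`.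

Examples for (2): a property that fails for the graph without edges and holds for some graph that
consists of `ε n` isolated vertices and a graph of bandwidth at most `δ n`; a property that fails for
`S(ε n)` and holds for some graph of bandwidth at most `δ n` (for example a Hamiltonian cycle).

Proof.  The vertices outside the context are cut into `k` blocks, elementary abelian groups of order
`2 ^ a`. The group generated by their translations and the rotation of the blocks gives a linear
relation (Smith, Lefschetz; library of the starting files: `Pool.Agent.Y46.Kc.relGG`) between the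
values on the graphs with complete blocks in which blocks of differences `± t`, `t ∈ T`, are
joined. As `k` is prime all these graphs with `T` not empty contain a copy of the one with
`T = {1}`, so the relation shows that `P` holds for the disjoint cliques, and
`Pool.Agent.Y46.Kc.two` applies.
-/

namespace Pool.Agent.Results.MP_257582_lc.SmallBandwidth

/-- Every decision strategy `σ` (the next pair to be queried depends only on the answers to the
queries made so far) needs at least `x` queries: for every `q < x` there are two graphs that agree on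
the first `q` queried pairs, one with and one without `P`. -/
def ComplexityAtLeast {n : ℕ} (P : SimpleGraph (Fin n) → Prop) (x : ℝ) : Prop :=
  ∀ σ : Finset (Sym2 (Fin n)) → SimpleGraph (Fin n) → Sym2 (Fin n),
    (∀ (Q : Finset (Sym2 (Fin n))) (G H : SimpleGraph (Fin n)),
        (∀ e ∈ Q, (e ∈ G.edgeSet ↔ e ∈ H.edgeSet)) → σ Q G = σ Q H) →
    ∀ q : ℕ, (q : ℝ) < x →
      ∃ G H : SimpleGraph (Fin n),
        (∀ e ∈ (fun Q : Finset (Sym2 (Fin n)) => insert (σ Q G) Q)^[q]
              (∅ : Finset (Sym2 (Fin n))),
            (e ∈ G.edgeSet ↔ e ∈ H.edgeSet)) ∧ P G ∧ ¬ P H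

/-- The complete split graph: the first `t` vertices are joined to all other vertices, and there are
no other edges. -/
def CompleteSplit (n t : ℕ) : SimpleGraph (Fin n) where
  Adj u v := u ≠ v ∧ (u.val < t ∨ v.val < t)
  symm := ⟨fun _ _ h => ⟨h.1.symm, h.2.symm⟩⟩
  loopless := ⟨fun _ h => h.1 rfl⟩

/-- The first `t` vertices are joined to all other vertices. The next `k B` vertices are cut into
`k` blocks of `B` vertices; two of them are joined if they are in the same block or in cyclically
neighbouring blocks. There are no other edges. -/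
def BlockCycle (n t k B : ℕ) : SimpleGraph (Fin n) where
  Adj u v := u ≠ v ∧ (u.val < t ∨ v.val < t ∨
    (((u.val - t) / B = (v.val - t) / B ∨ ((u.val - t) / B + 1) % k = (v.val - t) / B ∨
      ((v.val - t) / B + 1) % k = (u.val - t) / B) ∧ u.val < t + k * B ∧ v.val < t + k * B))
  symm := ⟨fun _ _ h => ⟨h.1.symm, by
    rcases h.2 with h | h | ⟨h1, h2, h3⟩
    · exact Or.inr (Or.inl h)
    · exact Or.inl h
    · refine Or.inr (Or.inr ⟨?_, h3, h2⟩)
      rcases h1 with h1 | h1 | h1
      · exact Or.inl h1.symm
      · exact Or.inr (Or.inr h1)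
      · exact Or.inr (Or.inl h1)⟩⟩
  loopless := ⟨fun _ h => h.1 rfl⟩

/-- The vertices of `G` can be arranged (vertex `u` at place `σ u`) such that every edge which does
not meet one of the first `t` places joins two vertices at places before `m` at a distance at most
`b`: after the deletion of `t` vertices the graph has bandwidth at most `b` and all but `m - t` of
its vertices are isolated. -/
def Banded {n : ℕ} (t : ℕ) (m b : ℝ) (G : SimpleGraph (Fin n)) : Prop :=
  ∃ σ : Fin n ≃ Fin n, ∀ u v : Fin n, G.Adj u v → (σ u).val < t ∨ (σ v).val < t ∨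
    (((σ u).val : ℝ) < m ∧ ((σ v).val : ℝ) < m ∧ |((σ u).val : ℝ) - (σ v).val| ≤ b)

open Finset
open Pool.Agent.H119R2.Kp (GP dual pve_map_adj)
open Pool.Agent.Q40.KP

theorem gp_of_not {n : ℕ} {P : SimpleGraph (Fin n) → Prop}
    (hmono : ∀ G H : SimpleGraph (Fin n), G ≤ H → P G → P H)
    (hiso : ∀ (σ : Fin n ≃ Fin n) (G : SimpleGraph (Fin n)), P G → P (G.map σ.toEmbedding))
    (x : ℝ) (h : ∀ q : ℕ, (q : ℝ) < x → ¬ GP n q P) : ComplexityAtLeast P x := by
  intro σ hσ q hq
  by_contra hcon
  refine h q hq ⟨hmono, hiso, Pool.Agent.H119R2.Kp.dec_of_strategy _ P σ hσ fun G H hGH hPG => ?_⟩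
  by_contra hPH
  exact hcon ⟨G, H, hGH, hPG, hPH⟩

theorem gp_dual {n q : ℕ} {P P' : SimpleGraph (Fin n) → Prop}
    (hP' : P' = P ∨ P' = fun G => ¬ P Gᶜ) (h : GP n q P) : GP n q P' := by
  rcases hP' with rfl | rfl
  · exact h
  · exact h.dual'

theorem part_block {n q : ℕ} {P : SimpleGraph (Fin n) → Prop} (hP : GP n q P) (a k t : ℕ)
    (hk : k.Prime) (hkn : t + k * 2 ^ a ≤ n) (h0 : ¬ P (CompleteSplit n t))
    (h1 : P (BlockCycle n t k (2 ^ a))) : k.choose 2 * (2 ^ a) ^ 2 ≤ q :=
  band_core hP hk hkn h0 _ h1 fun _ _ huv => huv.2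

/-- **Near-evasiveness from small bandwidth.** -/
theorem result :
    (∀ (n : ℕ) (P P' : SimpleGraph (Fin n) → Prop),
      (∀ G H : SimpleGraph (Fin n), G ≤ H → P G → P H) →
      (∀ (σ : Fin n ≃ Fin n) (G : SimpleGraph (Fin n)), P G → P (G.map σ.toEmbedding)) →
      (P' = P ∨ P' = fun G => ¬ P Gᶜ) →
      ∀ a k t : ℕ, k.Prime → t + k * 2 ^ a ≤ n → ¬ P' (CompleteSplit n t) →
        P' (BlockCycle n t k (2 ^ a)) →
        ComplexityAtLeast P ((k.choose 2 * (2 ^ a) ^ 2 : ℕ) : ℝ)) ∧
    (∀ ε : ℝ, 0 < ε → ∃ δ : ℝ, 0 < δ ∧ ∃ n₀ : ℕ, ∀ n : ℕ, n₀ ≤ n →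
      ∀ (P P' : SimpleGraph (Fin n) → Prop),
      (∀ G H : SimpleGraph (Fin n), G ≤ H → P G → P H) →
      (∀ (σ : Fin n ≃ Fin n) (G : SimpleGraph (Fin n)), P G → P (G.map σ.toEmbedding)) →
      (P' = P ∨ P' = fun G => ¬ P Gᶜ) →
      ∀ (t₀ t₁ : ℕ) (m : ℝ), t₁ ≤ t₀ → t₀ ≤ n → ε * n ≤ ((n : ℝ) - m) + ((t₀ : ℝ) - t₁) →
        ¬ P' (CompleteSplit n t₀) →
        (∃ G : SimpleGraph (Fin n), P' G ∧ Banded t₁ m (δ * n) G) →
        ComplexityAtLeast P (((n : ℝ) - t₁) ^ 2 / 2 - 2 * ε * (n : ℝ) ^ 2)) := by
  classical
  constructor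
  · intro n P P' hmono hiso hP' a k t hk hkn h0 h1
    refine gp_of_not hmono hiso _ fun q hq hGP => ?_
    have h2 := part_block (gp_dual hP' hGP) a k t hk hkn h0 h1
    have h3 : q < k.choose 2 * (2 ^ a) ^ 2 := by exact_mod_cast hq
    omega
  · intro ε hε
    rcases le_or_gt (1 / 4) ε with h4 | h4
    · refine ⟨1, one_pos, 0, fun n _ P P' hmono hiso _ t₀ t m ht1 ht0 _ _ _ => ?_⟩
      refine gp_of_not hmono hiso _ fun q hq _ => ?_
      have hq0 : (0 : ℝ) ≤ q := Nat.cast_nonneg _
      have ht0' : (0 : ℝ) ≤ t := Nat.cast_nonneg _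
      have htn : (t : ℝ) ≤ n := by exact_mod_cast ht1.trans ht0
      have h5 : ((n : ℝ) - t) ^ 2 ≤ (n : ℝ) ^ 2 := pow_le_pow_left₀ (by linarith) (by linarith) 2
      have h6 : 0 ≤ (n : ℝ) ^ 2 := by positivity
      nlinarith
    · obtain ⟨δ, hδ, n₀, h⟩ := num3 ε hε h4
      refine ⟨δ, hδ, n₀, ?_⟩
      rintro n hn P P' hmono hiso hP' t₀ t₁ m ht1 ht0 hwin h0 ⟨G, hPG, σ, hσ⟩
      refine gp_of_not hmono hiso _ fun q hq hGP => ?_
      obtain ⟨a, k, hk, hkn, hm, hb, hlt⟩ := h n t₁ q hn (ht1.trans ht0) hq
      have hGP' := gp_dual hP' hGP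
      -- the number of universal vertices
      obtain ⟨t, ht⟩ : ∃ t : ℕ, t = min t₀ (n - k * 2 ^ a) := ⟨_, rfl⟩
      have htt0 : t ≤ t₀ := by rw [ht]; exact min_le_left _ _
      have ht1t : t₁ ≤ t := by rw [ht]; exact le_min ht1 (by omega)
      have htn : t + k * 2 ^ a ≤ n := by
        have : t ≤ n - k * 2 ^ a := by rw [ht]; exact min_le_right _ _
        omega
      have hplace : ∀ x : Fin n, (x.val : ℝ) < m → x.val < t + k * 2 ^ a := by
        intro x hx
        rcases le_total t₀ (n - k * 2 ^ a) with h5 | h5
        · have h6 : t = t₀ := by rw [ht]; exact min_eq_left h5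
          have h7 : (x.val : ℝ) < ((t + k * 2 ^ a : ℕ) : ℝ) := by
            rw [h6]
            push_cast at hm ⊢
            linarith
          exact_mod_cast h7
        · have h6 : t = n - k * 2 ^ a := by rw [ht]; exact min_eq_right h5
          have := x.2
          omega
      have h1 : P' (BlockCycle n t k (2 ^ a)) := by
        refine hGP'.mono _ _ ?_ (hGP'.iso σ G hPG)
        intro u v huv
        refine ⟨huv.ne, ?_⟩
        rw [pve_map_adj] at huv
        have h2 := hσ _ _ huv
        rw [Equiv.apply_symm_apply, Equiv.apply_symm_apply] at h2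
        rcases h2 with h2 | h2 | ⟨h2, h3, h5⟩
        · exact Or.inl (lt_of_lt_of_le h2 ht1t)
        · exact Or.inr (Or.inl (lt_of_lt_of_le h2 ht1t))
        · by_cases hu : u.val < t
          · exact Or.inl hu
          · by_cases hv : v.val < t
            · exact Or.inr (Or.inl hv)
            · have hu2 : u.val < t + k * 2 ^ a := hplace u h2
              have hv2 : v.val < t + k * 2 ^ a := hplace v h3
              have h6 := abs_le.1 (h5.trans hb)
              have h7 : u.val ≤ v.val + 2 ^ a := by
                have : (u.val : ℝ) ≤ ((v.val + 2 ^ a : ℕ) : ℝ) := by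
                  push_cast
                  linarith [h6.2]
                exact_mod_cast this
              have h8 : v.val ≤ u.val + 2 ^ a := by
                have : (v.val : ℝ) ≤ ((u.val + 2 ^ a : ℕ) : ℝ) := by
                  push_cast
                  linarith [h6.1]
                exact_mod_cast this
              refine Or.inr (Or.inr ⟨?_, hu2, hv2⟩)
              exact adj_of_band (by positivity) (by omega) (by omega) (by omega) (by omega)
      have h2 := part_block hGP' a k t hk htn
        (fun h => h0 (hGP'.mono _ _ (split_mono htt0) h)) h1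
      omega

end Pool.Agent.Results.MP_257582_lc.SmallBandwidth
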